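import Pool.Agent.Lib.MP_5bec91_al.Bu.Line
import Pool.Agent.Lib.MP_5bec91_al.Bu.AlgB
import Pool.Agent.Lib.MP_5bec91_al.Bu.Wind
import Pool.Agent.Lib.MP_5bec91_al.Bu.QGeo
import Pool.Agent.Lib.MP_5bec91_al.Bu.L2
import Pool.Agent.Lib.MP_5bec91_al.Bu.NewLib
import Pool.Agent.Lib.MP_5bec91_al.Bu.NewOne
import Pool.Agent.Lib.MP_5bec91_al.Bu.Base
import Pool.Agent.Lib.MP_5bec91_al.Bu.Step

/-! The negated form of Q1: a 2-group that is not locally finite, with a periodic, locally
cyclic, regular group of automorphisms acting transitively on its involutions. -/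

set_option autoImplicit false

namespace Pool.Agent.Results.MP_5bec91_al.Counterexample

open Pool.Agent.Bu

private theorem main : Main := by
  obtain ⟨F, _, _, _, hA⟩ := fieldStmt
  have hH := hypLib
  have hS := shiftLib hH
  have hL := lineLib hH
  have hB := algB algA
  have hSt : StStmt := stStmt hH hL algA
  have hP : P1DStmt := p1dStmt hH algA hB hSt
  exact limitStmt F hA (baseStmt hH hS hL algA F hA)
    (stepStmt F hA hH hB hSt hP (conesStmt hH hL algA hSt hP) windStmt (elecStmt hH)
      (liftStmt hH) (qgeoStmt hH) l1Stmt (rotStmt hH hB) (l2Stmt hH algA hB) (qaxisStmt hH)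
      (l3Stmt hH hB) (l4Stmt hH algA hB) (newLibStmt algA hB) (newOneStmt algA hB)
      (newLawStmt algA hB) (newChnStmt algA hB) (extLib algA hB))

theorem result :
    ∃ (G : Type) (_ : Group G) (A : Subgroup (MulAut G)),
      (∀ g : G, ∃ n : ℕ, orderOf g = 2 ^ n) ∧
      (∀ α : A, IsOfFinOrder α) ∧
      (∀ B : Subgroup A, B.FG → IsCyclic B) ∧
      (∀ α ∈ A, α ≠ 1 → {x : G | α x = x} = {1}) ∧
      (∀ s t : G, orderOf s = 2 → orderOf t = 2 → ∃ α ∈ A, α s = t) ∧
      ∃ H : Subgroup G, H.FG ∧ Infinite H := by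
  by_contra hcon
  apply main
  intro G _ h2 A hper hcyc hreg htr H hH
  by_contra hfin
  apply hcon
  refine ⟨G, inferInstance, A, ?_, ?_, ?_, ?_, htr, H, hH, not_finite_iff_infinite.1 hfin⟩
  · intro g
    obtain ⟨n, hn⟩ := h2 g
    obtain ⟨k, -, hk⟩ := (Nat.dvd_prime_pow Nat.prime_two).1 (orderOf_dvd_of_pow_eq_one hn)
    exact ⟨k, hk⟩
  · intro α
    exact (Function.Injective.isOfFinOrder_iff (f := A.subtype) Subtype.val_injective).1
      (hper α.1 α.2)
  · intro B hB
    have h0 : (B.map A.subtype).FG := by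
      rw [Subgroup.fg_iff_submonoid_fg] at hB ⊢
      exact hB.map A.subtype
    have h1 : IsCyclic (B.map A.subtype) := hcyc _ (Subgroup.map_subtype_le B) h0
    exact isCyclic_of_surjective
      (Subgroup.equivMapOfInjective B A.subtype Subtype.val_injective).symm
      (MulEquiv.surjective _)
  · intro α hα h1
    ext x
    simp only [Set.mem_ofPred_eq, Set.mem_singleton_iff]
    constructor
    · intro hx
      by_contra hx1
      exact hreg α hα h1 x hx1 hx
    · rintro rfl
      exact map_one α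

end Pool.Agent.Results.MP_5bec91_al.Counterexample
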