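import Mathlib
import Pool.Agent.Lib.MP_5bec91_al.Commute
import Pool.Agent.Lib.MP_3b0e0c_al.LF

set_option autoImplicit false

namespace Pool.Agent.Results.MP_5bec91_al.ExponentEight

open Pool.Agent.Lib.MP_5bec91_al Pool.Agent.Lib.MP_3b0e0c_al

universe u

/-- A group of exponent dividing eight with an abelian group of automorphisms that is transitive
on the involutions is locally finite. -/
theorem result :
    ∀ (G : Type u) [Group G],
      (∀ g : G, g ^ 8 = 1) →
      ∀ A : Subgroup (MulAut G),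
        (∀ a ∈ A, ∀ b ∈ A, a * b = b * a) →
        (∀ x y : G, orderOf x = 2 → orderOf y = 2 → ∃ a ∈ A, a x = y) →
        ∀ H : Subgroup G, H.FG → Finite H := by
  intro G _ h8 A hA ht H hH
  have hc : ∀ s t : G, s * s = 1 → t * t = 1 → Commute s t := by
    intro s t hs ht'
    by_cases h1 : s = 1
    · simp [h1]
    by_cases h2' : t = 1
    · simp [h2']
    exact involutions_commute (fun g => ⟨3, h8 g⟩) A hA ht s t (orderOf_eq_two_of h1 hs)
      (orderOf_eq_two_of h2' ht')
  have htor : IsMulTorsion G := fun g => isOfFinOrder_iff_pow_eq_one.2 ⟨8, by norm_num, h8 g⟩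
  have hk : LF (QuotientGroup.mk' (rad G)).ker := by rw [QuotientGroup.ker_mk']; exact LF_rad
  have h4 : ∀ u : G ⧸ rad G, u ^ 4 = 1 := by
    intro u
    obtain ⟨y, rfl⟩ := QuotientGroup.mk'_surjective _ u
    have hy : y ^ 4 * y ^ 4 = 1 := by rw [← pow_add]; exact h8 y
    rw [← map_pow]
    refine (QuotientGroup.eq_one_iff _).2 ⟨_, inferInstance, LF_normalClosure htor (z := y ^ 4)
      fun g => hc _ _ hy ?_, Subgroup.subset_normalClosure rfl⟩
    calc g * y ^ 4 * g⁻¹ * (g * y ^ 4 * g⁻¹) = g * (y ^ 4 * y ^ 4) * g⁻¹ := by group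
      _ = 1 := by rw [hy]; group
  have hall := LF.comap _ hk (sanov h4)
  rw [Subgroup.comap_top] at hall
  obtain ⟨S, rfl⟩ := hH
  exact hall S S.finite_toSet (Set.subset_univ _)

end Pool.Agent.Results.MP_5bec91_al.ExponentEight
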