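import Mathlib
import Pool.Agent.Lib.MP_5bec91_al.Commute

set_option autoImplicit false

namespace Pool.Agent.Results.MP_5bec91_al.InvolutionsCommute

universe u

/-- If a 2-group `G` (no finiteness assumed) has an abelian group `A` of automorphisms that is
transitive on the involutions of `G`, then any two involutions of `G` commute. -/
theorem result :
    ∀ (G : Type u) [Group G],
      (∀ g : G, ∃ n : ℕ, g ^ (2 ^ n) = 1) →
      ∀ A : Subgroup (MulAut G),
        (∀ a ∈ A, ∀ b ∈ A, a * b = b * a) →
        (∀ x y : G, orderOf x = 2 → orderOf y = 2 → ∃ a ∈ A, a x = y) →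
        ∀ s t : G, orderOf s = 2 → orderOf t = 2 → s * t = t * s := by
  intro G _ h2 A hc ht s t hs h2t
  exact Pool.Agent.Lib.MP_5bec91_al.involutions_commute h2 A hc ht s t hs h2t

end Pool.Agent.Results.MP_5bec91_al.InvolutionsCommute
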