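import Mathlib
import Pool.Agent.Lib.MP_5bec91_al.Commute
import Pool.Agent.Lib.MP_5bec91_al.Levi


set_option autoImplicit false

namespace Pool.Agent.Results.MP_5bec91_al.OrderThree

open Pool.Agent.Lib.MP_5bec91_al
open scoped commutatorElement

universe u

/-- Let `G` be a 2-group with an abelian group `A` of automorphisms that is transitive on the
involutions. If `G` has a fixed-point-free automorphism of order three, then `G` is nilpotent of
class at most two and locally finite. -/
theorem result :
    ∀ (G : Type u) [Group G],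
      (∀ g : G, ∃ n : ℕ, g ^ (2 ^ n) = 1) →
      ∀ A : Subgroup (MulAut G),
        (∀ a ∈ A, ∀ b ∈ A, a * b = b * a) →
        (∀ x y : G, orderOf x = 2 → orderOf y = 2 → ∃ a ∈ A, a x = y) →
        (∃ a : MulAut G, orderOf a = 3 ∧ ∀ g : G, g ≠ 1 → a g ≠ g) →
        commutator G ≤ Subgroup.center G ∧ ∀ H : Subgroup G, H.FG → Finite H := by
  intro G _ h2 A hA ht ⟨a, ha, hf⟩
  have hc : ∀ s t : G, s * s = 1 → t * t = 1 → s * t = t * s := by
    intro s t hs ht'
    by_cases h1 : s = 1
    · simp [h1]
    by_cases h2' : t = 1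
    · simp [h2']
    exact involutions_commute h2 A hA ht s t (orderOf_eq_two_of h1 hs) (orderOf_eq_two_of h2' ht')
  have h3 : ∀ g, a (a (a g)) = g := fun g => by
    have := congrArg (fun e : MulAut G => e g) (pow_orderOf_eq_one a)
    rw [ha] at this
    simpa [pow_succ] using this
  have he := engel_of_split a (split h2 hc a h3 fun g hg => by
    by_contra h
    exact hf g h hg)
  constructor
  · rw [commutator_eq_closure, Subgroup.closure_le]
    rintro _ ⟨y, z, rfl⟩
    rw [SetLike.mem_coe, Subgroup.mem_center_iff]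
    intro x
    obtain ⟨m, hm⟩ := cube_root h2 ⁅x, ⁅y, z⁆⁆
    rw [triple_cube he, one_pow] at hm
    exact (commutatorElement_eq_one_iff_mul_comm.1 hm.symm)
  · rintro H ⟨S, rfl⟩
    refine locally_finite_of_engel (fun x => ?_) he S
    obtain ⟨n, hn⟩ := h2 x
    exact isOfFinOrder_iff_pow_eq_one.2 ⟨2 ^ n, by positivity, hn⟩

end Pool.Agent.Results.MP_5bec91_al.OrderThree
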